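import Pool.Agent.Helper33.TB.Goals

/-!
# Project TB (MP_74f661_nt): packet EXP (expansion over a window)
-/

set_option autoImplicit false

namespace Pool.Agent.Helper83.TB

open Finset Pool.Agent.Helper33.TB

theorem pc_eq (X : ℤ → ℝ) (τ : ℝ) (H : ℕ) (t : ℤ) : Pc X τ H t = Pw X τ (H + 1) t := by
  unfold Pc Pw
  apply Finset.prod_congr _ fun _ _ => rfl
  ext i
  simp only [mem_Icc, mem_Ioo]
  omega

theorem pc_succ (X : ℤ → ℝ) (τ : ℝ) (H : ℕ) (t : ℤ) :
    Pc X τ (H + 1) t = Pc X τ H t * (1 - τ * X (t + ((H + 1 : ℕ) : ℤ))) := by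
  unfold Pc
  rw [Finset.prod_Icc_succ_top (by omega)]

theorem expd : StmtEXP := by
  refine ⟨?_, ?_⟩
  · intro X τ F hF t H
    induction H with
    | zero => simp [Pc]
    | succ H ih =>
      rw [Finset.sum_Icc_succ_top (by omega), pc_succ, ← pc_eq]
      have h := hF (t + (H : ℤ))
      have e : t + (H : ℤ) + 1 = t + ((H + 1 : ℕ) : ℤ) := by push_cast; ring
      rw [e] at h
      rw [h] at ih
      rw [ih, pow_succ]
      ring
  · intro X s V hV t H
    induction H with
    | zero => simp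
    | succ H ih =>
      rw [Finset.sum_Icc_succ_top (by omega)]
      have h := hV (t - ((H + 1 : ℕ) : ℤ))
      have e : t - ((H + 1 : ℕ) : ℤ) + 1 = t - (H : ℤ) := by push_cast; ring
      rw [e] at h
      rw [h] at ih
      have e2 : H + 1 - 1 = H := by omega
      rw [ih, e2, pow_succ, pow_succ]
      ring

end Pool.Agent.Helper83.TB
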